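import Mathlib

/-!
# Mixed test ideals of `(xy)` and `(x + y)` in `F_2[x, y]`: the algebra
-/

set_option autoImplicit false

open MvPolynomial

namespace Pool.Agent.Y108.MT

/-- the ring `F_2[x, y]` -/
abbrev R : Type := MvPolynomial (Fin 2) (ZMod 2)

/-- `x` -/
noncomputable abbrev x : R := X 0
/-- `y` -/
noncomputable abbrev y : R := X 1

instance : ExpChar R 2 := ExpChar.prime Nat.prime_two

lemma frobenius_finite : (frobenius R 2).Finite := by
  rw [RingHom.finite_iff_isIntegral_and_finiteType]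
  constructor
  · intro r
    refine ⟨Polynomial.X ^ 2 - Polynomial.C r, Polynomial.monic_X_pow_sub_C r two_ne_zero, ?_⟩
    simp [frobenius_def]
  · have h1 : (frobenius R 2).comp (C : ZMod 2 →+* R) = (C : ZMod 2 →+* R) := by
      refine RingHom.ext fun a => ?_
      rw [RingHom.comp_apply, frobenius_def, ← map_pow, ZMod.pow_card a]
    have h2 : (C : ZMod 2 →+* R).FiniteType := by
      have : Algebra.FiniteType (ZMod 2) R := inferInstance
      exact RingHom.finiteType_algebraMap.2 this
    rw [← h1] at h2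
    exact RingHom.FiniteType.of_comp_finiteType h2

lemma regular (P : Ideal R) [P.IsPrime] :
    ringKrullDim (Localization.AtPrime P) =
      ((Module.finrank (IsLocalRing.ResidueField (Localization.AtPrime P))
        (IsLocalRing.CotangentSpace (Localization.AtPrime P)) : ℕ) : WithBot ℕ∞) := by
  have h : IsRegularLocalRing (Localization.AtPrime P) := inferInstance
  exact ((IsRegularLocalRing.iff_finrank_cotangentSpace _).1 h).symm

/-- The `F_2`-linear map which picks the component of the basis element `x^a y^b` of `F_2[x, y]`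
over the subring of the `q`-th powers, followed by the `q`-th root. -/
noncomputable def comp (q : ℕ) (m₀ : Fin 2 →₀ ℕ) : R →ₗ[ZMod 2] R :=
  (basisMonomials (Fin 2) (ZMod 2)).constr (ZMod 2)
    (fun m => if ∀ i, m i % q = m₀ i then
      monomial (m.mapRange (fun n => n / q) (Nat.zero_div q)) 1 else 0)

lemma comp_monomial (q : ℕ) (m₀ m : Fin 2 →₀ ℕ) :
    comp q m₀ (monomial m 1) = if ∀ i, m i % q = m₀ i then
      monomial (m.mapRange (fun n => n / q) (Nat.zero_div q)) 1 else 0 := by
  have h := (basisMonomials (Fin 2) (ZMod 2)).constr_basis (ZMod 2)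
    (fun m => if ∀ i, m i % q = m₀ i then
      (monomial (m.mapRange (fun n => n / q) (Nat.zero_div q)) 1 : R) else 0) m
  rw [MvPolynomial.coe_basisMonomials] at h
  exact h

lemma comp_pow_mul (e : ℕ) (m₀ : Fin 2 →₀ ℕ) (s r : R) :
    comp (2 ^ e) m₀ (r ^ 2 ^ e * s) = r * comp (2 ^ e) m₀ s := by
  have hq : 0 < 2 ^ e := by positivity
  have key : ∀ (u v : Fin 2 →₀ ℕ), comp (2 ^ e) m₀ ((monomial u (1 : ZMod 2)) ^ 2 ^ e *
      monomial v 1) = monomial u 1 * comp (2 ^ e) m₀ (monomial v 1) := by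
    intro u v
    rw [monomial_pow, monomial_mul, one_pow, one_mul, comp_monomial, comp_monomial]
    have h1 : (∀ i, ((2 ^ e) • u + v) i % 2 ^ e = m₀ i) ↔ ∀ i, v i % 2 ^ e = m₀ i := by
      refine forall_congr' fun i => ?_
      rw [Finsupp.add_apply, Finsupp.smul_apply, smul_eq_mul, Nat.mul_add_mod]
    by_cases h : ∀ i, v i % 2 ^ e = m₀ i
    · have h2 : Finsupp.mapRange (fun n => n / 2 ^ e) (Nat.zero_div (2 ^ e)) ((2 ^ e) • u + v) =
          u + Finsupp.mapRange (fun n => n / 2 ^ e) (Nat.zero_div (2 ^ e)) v := by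
        ext i
        rw [Finsupp.mapRange_apply, Finsupp.add_apply, Finsupp.add_apply, Finsupp.mapRange_apply,
          Finsupp.smul_apply, smul_eq_mul, Nat.mul_add_div hq]
      rw [if_pos h, if_pos (h1.2 h), monomial_mul, one_mul, h2]
    · rw [if_neg h, if_neg (fun h' => h (h1.1 h')), mul_zero]
  have hmon : ∀ (u : Fin 2 →₀ ℕ) (a : ZMod 2), (monomial u a : R) = C a * monomial u 1 := by
    intro u a
    rw [C_mul_monomial, mul_one]
  induction s using MvPolynomial.induction_on' with
  | add p q hp hq' => rw [mul_add, map_add, map_add, hp, hq', mul_add]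
  | monomial v b =>
    rw [hmon v b, ← smul_eq_C_mul, mul_smul_comm, map_smul, map_smul, mul_smul_comm]
    congr 1
    induction r using MvPolynomial.induction_on' with
    | add p q hp hq' => rw [add_pow_expChar_pow, add_mul, map_add, hp, hq', add_mul]
    | monomial u a =>
      have ha : a ^ 2 ^ e = a := ZMod.pow_card_pow a
      rw [hmon u a, mul_pow, ← map_pow, ha, mul_assoc, ← smul_eq_C_mul, map_smul, key,
        mul_assoc, ← smul_eq_C_mul]

lemma comp_mem (e : ℕ) (m₀ : Fin 2 →₀ ℕ) (K : Ideal R) {f : R}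
    (hf : f ∈ Ideal.map (iterateFrobenius R 2 e) K) : comp (2 ^ e) m₀ f ∈ K := by
  rw [Ideal.map] at hf
  refine Submodule.span_induction (p := fun f _ => ∀ s : R, comp (2 ^ e) m₀ (s * f) ∈ K)
    ?_ ?_ ?_ ?_ hf 1 |> fun h => by simpa using h
  · rintro _ ⟨k, hk, rfl⟩ s
    rw [iterateFrobenius_def, mul_comm, comp_pow_mul]
    exact K.mul_mem_right _ hk
  · intro s
    simp
  · intro f g _ _ hf hg s
    rw [mul_add, map_add]
    exact K.add_mem (hf s) (hg s)
  · intro a f _ hf s
    rw [smul_eq_mul, ← mul_assoc]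
    exact hf _

lemma xy_ne : x + y ≠ 0 := by
  intro h
  have h1 := congrArg (coeff (Finsupp.single 0 1)) h
  rw [coeff_add, coeff_X, coeff_X, coeff_zero] at h1
  have h2 : (Finsupp.single (1 : Fin 2) 1 : Fin 2 →₀ ℕ) ≠ Finsupp.single 0 1 := by
    intro h3
    have := congrArg (fun g => g 1) h3
    simp at this
  simp [h2] at h1

/-- `(x + y)^(2^N - 1)` is the sum of all monomials of degree `2^N - 1`. -/
lemma add_pow_sub_one (N : ℕ) :
    (x + y) ^ (2 ^ N - 1) = ∑ i ∈ Finset.range (2 ^ N), x ^ i * y ^ (2 ^ N - 1 - i) := by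
  have h0 : (x + y) = x - y := by
    rw [sub_eq_add_neg, CharTwo.neg_eq]
  have h1 : (x + y) ^ (2 ^ N - 1) * (x + y) =
      (∑ i ∈ Finset.range (2 ^ N), x ^ i * y ^ (2 ^ N - 1 - i)) * (x + y) := by
    have hN : 2 ^ N - 1 + 1 = 2 ^ N := Nat.sub_add_cancel Nat.one_le_two_pow
    rw [← pow_succ, hN, add_pow_expChar_pow]
    conv_rhs => rw [h0, (Commute.all x y).geom_sum₂_mul]
    rw [sub_eq_add_neg, CharTwo.neg_eq]
  exact mul_right_cancel₀ xy_ne h1

end Pool.Agent.Y108.MT
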