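import Pool.Agent.Y108.MT.Alg

/-!
# Mixed test ideals of `(xy)` and `(x + y)` in `F_2[x, y]`: an infinite staircase
-/

set_option autoImplicit false

open MvPolynomial

namespace Pool.Agent.Y108.MT

lemma comp_top (i t : ℕ) : comp (2 ^ (i + 1 + t))
    (Finsupp.single 0 (2 ^ (i + 1 + t) - 1) + Finsupp.single 1 (2 ^ (i + 1 + t) - 2))
    ((x * y) ^ (2 ^ (i + 1 + t) - 2 ^ t - 1) * (x + y) ^ (2 ^ (t + 1) - 1)) = 1 := by
  have hT : 0 < 2 ^ t := by positivity
  have hq : 2 ^ t * 2 ≤ 2 ^ (i + 1 + t) := by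
    rw [← pow_succ]; exact Nat.pow_le_pow_right (by norm_num) (by omega)
  have hN : 2 ^ (t + 1) = 2 ^ t * 2 := pow_succ 2 t
  rw [add_pow_sub_one, hN]
  generalize 2 ^ (i + 1 + t) = q at *
  generalize 2 ^ t = T at *
  have hmon : ∀ j ∈ Finset.range (T * 2), (x * y) ^ (q - T - 1) * (x ^ j * y ^ (T * 2 - 1 - j)) =
      monomial (Finsupp.single 0 (q - T - 1 + j) + Finsupp.single 1 (q - T - 1 + (T * 2 - 1 - j)))
        (1 : ZMod 2) := by
    intro j _
    have h1 : ∀ (k : Fin 2) (n : ℕ), (X k : R) ^ n = monomial (Finsupp.single k n) 1 := by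
      intro k n
      rw [X_pow_eq_monomial]
    rw [mul_pow, mul_mul_mul_comm, ← pow_add, ← pow_add, h1, h1, monomial_mul, one_mul]
  rw [Finset.mul_sum, Finset.sum_congr rfl hmon, map_sum, Finset.sum_eq_single T]
  · rw [comp_monomial, if_pos]
    · have h0 : Finsupp.mapRange (fun n => n / q) (Nat.zero_div q)
          (Finsupp.single (0 : Fin 2) (q - T - 1 + T) +
            Finsupp.single 1 (q - T - 1 + (T * 2 - 1 - T))) = 0 := by
        ext k
        fin_cases k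
        · simp [Finsupp.mapRange_apply]
          omega
        · simp [Finsupp.mapRange_apply]
          omega
      rw [h0]
      rfl
    · intro k
      fin_cases k
      · simp only [Fin.zero_eta, Finsupp.add_apply, Finsupp.single_eq_same, ne_eq,
          Finsupp.single_apply, one_ne_zero, if_false, add_zero]
        rw [Nat.mod_eq_of_lt (by omega)]
        omega
      · simp only [Fin.mk_one, Finsupp.add_apply, Finsupp.single_eq_same, ne_eq,
          Finsupp.single_apply, zero_ne_one, if_false, zero_add]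
        rw [Nat.mod_eq_of_lt (by omega)]
        omega
  · intro j hj hjT
    rw [Finset.mem_range] at hj
    rw [comp_monomial, if_neg]
    intro h
    have h0 := h 0
    simp only [Finsupp.add_apply, Finsupp.single_eq_same,
      Finsupp.single_apply, one_ne_zero, if_false, add_zero] at h0
    rcases lt_or_ge (q - T - 1 + j) q with h1 | h1
    · rw [Nat.mod_eq_of_lt h1] at h0
      omega
    · rw [Nat.mod_eq_sub_mod h1, Nat.mod_eq_of_lt (by omega)] at h0
      omega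
  · intro h
    exact absurd (Finset.mem_range.2 (by omega)) h

/-- If `x^A y^A (x + y)^C` is in `K^[q]` and the exponents are small then `K` is the unit ideal. -/
lemma eq_top_of_mem (i t A C : ℕ) (hA : A ≤ 2 ^ (i + 1 + t) - 2 ^ t - 1)
    (hC : C ≤ 2 ^ (t + 1) - 1) (K : Ideal R)
    (h : (x * y) ^ A * (x + y) ^ C ∈ Ideal.map (iterateFrobenius R 2 (i + 1 + t)) K) :
    K = ⊤ := by
  have h1 : (x * y) ^ (2 ^ (i + 1 + t) - 2 ^ t - 1) * (x + y) ^ (2 ^ (t + 1) - 1) ∈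
      Ideal.map (iterateFrobenius R 2 (i + 1 + t)) K := by
    obtain ⟨a, ha⟩ := Nat.exists_eq_add_of_le hA
    obtain ⟨c, hc⟩ := Nat.exists_eq_add_of_le hC
    rw [ha, hc, pow_add, pow_add, mul_mul_mul_comm]
    exact Ideal.mul_mem_right _ _ h
  have h2 := comp_mem (i + 1 + t) (Finsupp.single 0 (2 ^ (i + 1 + t) - 1) +
    Finsupp.single 1 (2 ^ (i + 1 + t) - 2)) K h1
  rw [comp_top] at h2
  exact (Ideal.eq_top_iff_one K).2 h2

/-- The maximal ideal of the origin. -/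
noncomputable def m : Ideal R := Ideal.span {x, y}

lemma m_ne_top : m ≠ ⊤ := by
  intro h
  have h1 : (1 : R) ∈ m := h ▸ Submodule.mem_top
  have h2 : m ≤ RingHom.ker (constantCoeff : R →+* ZMod 2) := by
    rw [m, Ideal.span_le]
    rintro f hf
    rcases hf with rfl | hf
    · simp [RingHom.mem_ker]
    · rw [Set.mem_singleton_iff] at hf
      rw [hf]
      simp [RingHom.mem_ker]
  have h3 := h2 h1
  rw [RingHom.mem_ker, map_one] at h3
  exact one_ne_zero h3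

lemma x_pow_mem (e n : ℕ) (h : 2 ^ e ≤ n) : x ^ n ∈ Ideal.map (iterateFrobenius R 2 e) m := by
  obtain ⟨a, rfl⟩ := Nat.exists_eq_add_of_le h
  rw [pow_add]
  refine Ideal.mul_mem_right _ _ ?_
  have h1 : iterateFrobenius R 2 e x = x ^ 2 ^ e := iterateFrobenius_def _ _ _
  rw [← h1]
  exact Ideal.mem_map_of_mem _ (Ideal.subset_span (by simp))

lemma y_pow_mem (e n : ℕ) (h : 2 ^ e ≤ n) : y ^ n ∈ Ideal.map (iterateFrobenius R 2 e) m := by
  obtain ⟨a, rfl⟩ := Nat.exists_eq_add_of_le h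
  rw [pow_add]
  refine Ideal.mul_mem_right _ _ ?_
  have h1 : iterateFrobenius R 2 e y = y ^ 2 ^ e := iterateFrobenius_def _ _ _
  rw [← h1]
  exact Ideal.mem_map_of_mem _ (Ideal.subset_span (by simp))

lemma mem_map_m (e i A C : ℕ) (h1 : e ≤ i → 2 ^ e ≤ A)
    (h2 : i < e → 2 ^ e - 2 ^ (e - i) ≤ A ∧ 2 ^ (e - i) ≤ C) :
    (x * y) ^ A * (x + y) ^ C ∈ Ideal.map (iterateFrobenius R 2 e) m := by
  rcases Nat.lt_or_ge i e with h | h
  · obtain ⟨hA, hC⟩ := h2 h
    have hw : 2 ^ (e - i) ≤ 2 ^ e := Nat.pow_le_pow_right (by norm_num) (by omega)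
    obtain ⟨a, ha⟩ := Nat.exists_eq_add_of_le hA
    obtain ⟨c, hc⟩ := Nat.exists_eq_add_of_le hC
    rw [ha, hc, pow_add, pow_add, mul_mul_mul_comm]
    refine Ideal.mul_mem_right _ _ ?_
    rw [add_pow_expChar_pow, mul_pow, mul_add]
    refine Ideal.add_mem _ ?_ ?_
    · rw [mul_right_comm, ← pow_add]
      exact Ideal.mul_mem_right _ _ (x_pow_mem e _ (by omega))
    · rw [mul_assoc, ← pow_add]
      exact Ideal.mul_mem_left _ _ (y_pow_mem e _ (by omega))
  · rw [mul_pow, mul_assoc]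
    exact Ideal.mul_mem_right _ _ (x_pow_mem e _ (h1 h))

/-- The ideals `(xy)` and `(x + y)`. -/
noncomputable def II : Fin 2 → Ideal R := ![Ideal.span {x * y}, Ideal.span {x + y}]

lemma prod_II (a : Fin 2 → ℕ) : ∏ k, II k ^ a k =
    Ideal.span {(x * y) ^ a 0 * (x + y) ^ a 1} := by
  rw [Fin.prod_univ_two]
  simp only [II, Matrix.cons_val_zero, Matrix.cons_val_one, Ideal.span_singleton_pow,
    Ideal.span_singleton_mul_span_singleton]

/-- The mixed test ideal as in the statement. -/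
noncomputable def tau (l : Fin 2 → ℝ) : Ideal R :=
  ⨆ e : ℕ, sInf {K : Ideal R | (∏ k, II k ^ ⌈l k * ((2 : ℕ) : ℝ) ^ e⌉₊) ≤
    Ideal.map (iterateFrobenius R 2 e) K}

lemma tau_le (i : ℕ) (l : Fin 2 → ℝ) (h0 : 1 - (1 / 2) ^ i < l 0) (h1 : (1 / 2) ^ i < l 1) :
    tau l ≤ m := by
  refine iSup_le fun e => sInf_le ?_
  change (∏ k, II k ^ ⌈l k * ((2 : ℕ) : ℝ) ^ e⌉₊) ≤ _
  rw [prod_II, Ideal.span_singleton_le_iff_mem]
  have hq : (0 : ℝ) < 2 ^ e := by positivity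
  apply mem_map_m e i
  · intro hei
    have h2 : ((2 ^ e - 1 : ℕ) : ℝ) < l 0 * ((2 : ℕ) : ℝ) ^ e := by
      have h3 : (1 / 2 : ℝ) ^ i * 2 ^ e ≤ 1 := by
        rw [one_div, inv_pow, inv_mul_le_iff₀ (by positivity), mul_one]
        exact pow_le_pow_right₀ (by norm_num) hei
      rw [Nat.cast_sub Nat.one_le_two_pow]
      push_cast
      nlinarith
    have h4 := Nat.lt_ceil.2 h2
    omega
  · intro hie
    have hw : 2 ^ (e - i) ≤ 2 ^ e := Nat.pow_le_pow_right (by norm_num) (by omega)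
    have h3 : (1 / 2 : ℝ) ^ i * 2 ^ e = 2 ^ (e - i) := by
      rw [one_div, inv_pow, inv_mul_eq_iff_eq_mul₀ (by positivity), ← pow_add]
      congr 1
      omega
    constructor
    · have h2 : ((2 ^ e - 2 ^ (e - i) : ℕ) : ℝ) ≤ l 0 * ((2 : ℕ) : ℝ) ^ e := by
        rw [Nat.cast_sub hw]
        push_cast
        nlinarith
      exact_mod_cast h2.trans (Nat.le_ceil _)
    · have h2 : ((2 ^ (e - i) : ℕ) : ℝ) ≤ l 1 * ((2 : ℕ) : ℝ) ^ e := by
        push_cast
        nlinarith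
      exact_mod_cast h2.trans (Nat.le_ceil _)

lemma tau_eq_top (i : ℕ) (l : Fin 2 → ℝ) (h0 : l 0 < 1 - (1 / 2) ^ (i + 1))
    (h1 : l 1 < (1 / 2) ^ i) : tau l = ⊤ := by
  obtain ⟨t, ht⟩ : ∃ t : ℕ, 1 / (1 - (1 / 2) ^ (i + 1) - l 0) < 2 ^ t ∧
      1 / ((1 / 2) ^ i - l 1) < 2 ^ t := by
    obtain ⟨t1, h1⟩ := pow_unbounded_of_one_lt (1 / (1 - (1 / 2) ^ (i + 1) - l 0))
      (one_lt_two (α := ℝ))
    obtain ⟨t2, h2⟩ := pow_unbounded_of_one_lt (1 / ((1 / 2) ^ i - l 1))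
      (one_lt_two (α := ℝ))
    exact ⟨max t1 t2, h1.trans_le (pow_le_pow_right₀ (by norm_num) (le_max_left _ _)),
      h2.trans_le (pow_le_pow_right₀ (by norm_num) (le_max_right _ _))⟩
  rw [div_lt_iff₀ (by linarith), div_lt_iff₀ (by linarith)] at ht
  obtain ⟨ht0, ht1⟩ := ht
  have hT : (1 : ℝ) ≤ 2 ^ t := one_le_pow₀ (by norm_num)
  have hI : (1 : ℝ) ≤ 2 ^ (i + 1) := one_le_pow₀ (by norm_num)
  have hq : (2 : ℝ) ^ (i + 1 + t) = 2 ^ (i + 1) * 2 ^ t := pow_add _ _ _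
  have e1 : (1 / 2 : ℝ) ^ (i + 1) * 2 ^ (i + 1 + t) = 2 ^ t := by
    rw [one_div, inv_pow, inv_mul_eq_iff_eq_mul₀ (by positivity), ← pow_add]
  have e2 : (1 / 2 : ℝ) ^ i * 2 ^ (i + 1 + t) = 2 ^ (t + 1) := by
    rw [one_div, inv_pow, inv_mul_eq_iff_eq_mul₀ (by positivity), ← pow_add]
    congr 1
    omega
  have hTq : 2 ^ t * 2 ≤ 2 ^ (i + 1 + t) := by
    rw [← pow_succ]; exact Nat.pow_le_pow_right (by norm_num) (by omega)
  have hT1 : 1 ≤ 2 ^ t := Nat.one_le_two_pow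
  have hN : 2 ^ (t + 1) = 2 ^ t * 2 := pow_succ 2 t
  rw [tau, eq_top_iff]
  refine le_trans ?_ (le_iSup _ (i + 1 + t))
  rw [top_le_iff, sInf_eq_top]
  intro K hK
  change (∏ k, II k ^ ⌈l k * ((2 : ℕ) : ℝ) ^ (i + 1 + t)⌉₊) ≤ _ at hK
  rw [prod_II, Ideal.span_singleton_le_iff_mem] at hK
  refine eq_top_of_mem i t _ _ ?_ ?_ K hK
  · rw [Nat.ceil_le, Nat.cast_sub (by omega), Nat.cast_sub (by omega)]
    push_cast
    nlinarith
  · rw [Nat.ceil_le, Nat.cast_sub (by omega)]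
    push_cast
    nlinarith

end Pool.Agent.Y108.MT
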