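import Mathlib
import Pool.Agent.Y108.MT.Reg

set_option autoImplicit false


namespace Pool.Agent.Y108.MT.Refutation

open Topology Set

/-- the small boxes at the corners of the staircase -/
def box (i : ℕ) : Set (Fin 2 → ℝ) :=
  {l | (1 - (1 / 2) ^ (i + 1) < l 0 ∧ l 0 < 1 - (1 / 2) ^ (i + 1) + (1 / 2) ^ (i + 6)) ∧
    ((1 / 2) ^ (i + 1) < l 1 ∧ l 1 < (1 / 2) ^ (i + 1) + (1 / 2) ^ (i + 6))}

lemma isOpen_box (i : ℕ) : IsOpen (box i) := by
  have c0 : Continuous (fun l : Fin 2 → ℝ => l 0) := continuous_apply 0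
  have c1 : Continuous (fun l : Fin 2 → ℝ => l 1) := continuous_apply 1
  exact ((isOpen_lt continuous_const c0).inter (isOpen_lt c0 continuous_const)).inter
    ((isOpen_lt continuous_const c1).inter (isOpen_lt c1 continuous_const))

lemma nonempty_box (i : ℕ) : (box i).Nonempty := by
  have h : (0 : ℝ) < (1 / 2) ^ (i + 6) := by positivity
  refine ⟨![1 - (1 / 2) ^ (i + 1) + (1 / 2) ^ (i + 6) / 2,
    (1 / 2) ^ (i + 1) + (1 / 2) ^ (i + 6) / 2], ?_⟩
  simp only [box, mem_ofPred_eq, Matrix.cons_val_zero, Matrix.cons_val_one]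
  refine ⟨⟨by linarith, by linarith⟩, ⟨by linarith, by linarith⟩⟩

/-- The segment between two of the boxes meets the region where the test ideal is the unit ideal. -/
lemma tau_segment {i j : ℕ} (hij : i < j) {p q : Fin 2 → ℝ} (hp : p ∈ box i) (hq : q ∈ box j) :
    Pool.Agent.Y108.MT.tau ((3 / 4 : ℝ) • p + (1 / 4 : ℝ) • q) = ⊤ := by
  obtain ⟨⟨p1, p2⟩, p3, p4⟩ := hp
  obtain ⟨⟨q1, q2⟩, q3, q4⟩ := hq
  have hs : (0 : ℝ) < (1 / 2) ^ i := by positivity
  have e1 : (1 / 2 : ℝ) ^ (i + 1) = (1 / 2) ^ i / 2 := by rw [pow_succ]; ring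
  have e6 : (1 / 2 : ℝ) ^ (i + 6) = (1 / 2) ^ i / 64 := by rw [pow_add]; norm_num; ring
  have f1 : (1 / 2 : ℝ) ^ (j + 1) = (1 / 2) ^ j / 2 := by rw [pow_succ]; ring
  have f6 : (1 / 2 : ℝ) ^ (j + 6) = (1 / 2) ^ j / 64 := by rw [pow_add]; norm_num; ring
  have hj0 : (0 : ℝ) < (1 / 2) ^ j := by positivity
  have hj : (1 / 2 : ℝ) ^ j ≤ (1 / 2) ^ i / 2 := by
    rw [← e1]
    exact pow_le_pow_of_le_one (by norm_num) (by norm_num) hij
  apply Pool.Agent.Y108.MT.tau_eq_top (i + 1)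
  · simp only [Pi.add_apply, Pi.smul_apply, smul_eq_mul]
    rw [show (1 / 2 : ℝ) ^ (i + 1 + 1) = (1 / 2) ^ i / 4 by rw [pow_add, pow_add]; norm_num; ring]
    linarith
  · simp only [Pi.add_apply, Pi.smul_apply, smul_eq_mul]
    linarith

lemma tau_box {i : ℕ} {p : Fin 2 → ℝ} (hp : p ∈ box i) :
    Pool.Agent.Y108.MT.tau p ≤ Pool.Agent.Y108.MT.m :=
  Pool.Agent.Y108.MT.tau_le (i + 1) p hp.1.1 hp.2.1

lemma box_le {i : ℕ} {p : Fin 2 → ℝ} (hp : p ∈ box i) (k : Fin 2) : 0 ≤ p k ∧ p k ≤ 2 := by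
  obtain ⟨⟨p1, p2⟩, p3, p4⟩ := hp
  have hs : (0 : ℝ) < (1 / 2) ^ i := by positivity
  have hs1 : (1 / 2 : ℝ) ^ i ≤ 1 := pow_le_one₀ (by norm_num) (by norm_num)
  have e1 : (1 / 2 : ℝ) ^ (i + 1) = (1 / 2) ^ i / 2 := by rw [pow_succ]; ring
  have e6 : (1 / 2 : ℝ) ^ (i + 6) = (1 / 2) ^ i / 64 := by rw [pow_add]; norm_num; ring
  fin_cases k
  · exact ⟨by simp only [Fin.zero_eta]; linarith, by simp only [Fin.zero_eta]; linarith⟩
  · exact ⟨by simp only [Fin.mk_one]; linarith, by simp only [Fin.mk_one]; linarith⟩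

/-- The negation of the preceding statement: For a Noetherian regular F-finite ring of prime characteristic, ideals I_1..I_r and any bound M, finitely many rational polyhedra in the nonnegative orthant cover [0,M]^r and the mixed test ideal of I_1^λ1…I_r^λr is constant on each polyhedron's interior. -/
theorem not_polyhedral :
    ¬ (∀ (p : ℕ), p.Prime → ∀ (R : Type) [CommRing R] [ExpChar R p],
      IsNoetherianRing R → (frobenius R p).Finite →
      (∀ (P : Ideal R) [P.IsPrime],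
        ringKrullDim (Localization.AtPrime P) =
          ((Module.finrank (IsLocalRing.ResidueField (Localization.AtPrime P))
            (IsLocalRing.CotangentSpace (Localization.AtPrime P)) : ℕ) : WithBot ℕ∞)) →
      ∀ (r : ℕ) (I : Fin r → Ideal R) (M : ℝ),
        ∃ (n : ℕ) (P : Fin n → Set (Fin r → ℝ)),
          (∀ k, ∃ (m : ℕ) (A : Fin m → Fin r → ℚ) (b : Fin m → ℚ),
            P k = {x : Fin r → ℝ | ∀ j, ∑ i, (A j i : ℝ) * x i ≤ (b j : ℝ)}) ∧
          (∀ k, P k ⊆ {x : Fin r → ℝ | ∀ i, 0 ≤ x i}) ∧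
          {x : Fin r → ℝ | ∀ i, 0 ≤ x i ∧ x i ≤ M} ⊆ ⋃ k, P k ∧
          ∀ k, ∀ x ∈ interior (P k), ∀ y ∈ interior (P k),
            (⨆ e : ℕ, sInf {K : Ideal R |
              (∏ i, I i ^ ⌈x i * (p : ℝ) ^ e⌉₊) ≤ Ideal.map (iterateFrobenius R p e) K}) =
            (⨆ e : ℕ, sInf {K : Ideal R |
              (∏ i, I i ^ ⌈y i * (p : ℝ) ^ e⌉₊) ≤ Ideal.map (iterateFrobenius R p e) K})) := by
  intro H
  obtain ⟨n, P, hP, -, hcov, hconst⟩ := H 2 Nat.prime_two Pool.Agent.Y108.MT.R inferInstance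
    Pool.Agent.Y108.MT.frobenius_finite (fun P _ => Pool.Agent.Y108.MT.regular P) 2
    Pool.Agent.Y108.MT.II 2
  have hclosed : ∀ k, IsClosed (P k) := by
    intro k
    obtain ⟨m, A, b, h⟩ := hP k
    rw [h, ofPred_forall]
    refine isClosed_iInter fun j => isClosed_le ?_ continuous_const
    exact continuous_finsetSum _ fun i _ => continuous_const.mul (continuous_apply i)
  have hconv : ∀ k, Convex ℝ (P k) := by
    intro k
    obtain ⟨m, A, b, h⟩ := hP k
    rw [h]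
    intro u hu v hv s t hs ht hst j
    have h1 : ∑ i, (A j i : ℝ) * (s • u + t • v) i =
        s * ∑ i, (A j i : ℝ) * u i + t * ∑ i, (A j i : ℝ) * v i := by
      rw [Finset.mul_sum, Finset.mul_sum, ← Finset.sum_add_distrib]
      refine Finset.sum_congr rfl fun i _ => ?_
      simp only [Pi.add_apply, Pi.smul_apply, smul_eq_mul]
      ring
    rw [h1]
    calc s * ∑ i, (A j i : ℝ) * u i + t * ∑ i, (A j i : ℝ) * v i
        ≤ s * (b j : ℝ) + t * (b j : ℝ) :=
          add_le_add (mul_le_mul_of_nonneg_left (hu j) hs) (mul_le_mul_of_nonneg_left (hv j) ht)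
      _ = (b j : ℝ) := by rw [← add_mul, hst, one_mul]
  have hmeet : ∀ i : ℕ, ∃ k : Fin n, (box i ∩ interior (P k)).Nonempty := by
    intro i
    let f : Option (Fin n) → Set (Fin 2 → ℝ) := fun o => o.elim (box i)ᶜ P
    have hf : ∀ o, IsClosed (f o) := by
      intro o
      cases o with
      | none => exact (isOpen_box i).isClosed_compl
      | some k => exact hclosed k
    have hU : ⋃ o, f o = univ := by
      rw [eq_univ_iff_forall]
      intro l
      by_cases hl : l ∈ box i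
      · obtain ⟨k, hk⟩ := mem_iUnion.1 (hcov (show l ∈ {x : Fin 2 → ℝ | ∀ i, 0 ≤ x i ∧ x i ≤ 2}
          from fun k => box_le hl k))
        exact mem_iUnion.2 ⟨some k, hk⟩
      · exact mem_iUnion.2 ⟨none, hl⟩
    have hd := dense_iUnion_interior_of_closed hf hU
    obtain ⟨l, hl, hl'⟩ := hd.inter_open_nonempty _ (isOpen_box i) (nonempty_box i)
    obtain ⟨o, ho⟩ := mem_iUnion.1 hl'
    cases o with
    | none => exact absurd hl (interior_subset ho)
    | some k => exact ⟨k, l, hl, ho⟩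
  choose k hk using hmeet
  obtain ⟨i, j, hne, hkk⟩ := Finite.exists_ne_map_eq_of_infinite k
  wlog hij : i < j generalizing i j
  · exact this j i hne.symm hkk.symm (lt_of_le_of_ne (not_lt.1 hij) hne.symm)
  obtain ⟨p, hp, hp'⟩ := hk i
  obtain ⟨q, hq, hq'⟩ := hk j
  rw [← hkk] at hq'
  have hz : (3 / 4 : ℝ) • p + (1 / 4 : ℝ) • q ∈ interior (P (k i)) :=
    (hconv (k i)).interior hp' hq' (by norm_num) (by norm_num) (by norm_num)
  have h1 : Pool.Agent.Y108.MT.tau p =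
      Pool.Agent.Y108.MT.tau ((3 / 4 : ℝ) • p + (1 / 4 : ℝ) • q) := hconst (k i) p hp' _ hz
  have h2 := tau_box hp
  rw [h1, tau_segment hij hp hq, top_le_iff] at h2
  exact Pool.Agent.Y108.MT.m_ne_top h2

end Pool.Agent.Y108.MT.Refutation
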